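import Pool.Agent.Helper76.CV.Goals

/-! Project CV (MP_eec6f5_gt), packet BAN. -/

namespace Pool.Agent.Helper77.CV.BAN

open Pool.Agent.Helper76.CV

theorem t : Pool.Agent.Helper76.CV.BAN := by
  intro c d c2 w h hw
  obtain ⟨hc0, hc1, hG1, hmain⟩ := h
  have hS0 : 0 ≤ 1 - c := by linarith
  have hsq : √(1 - c) ≤ 24 / 100 := by
    rw [show (24 / 100 : ℝ) = √((24 / 100) ^ 2) by rw [Real.sqrt_sq (by norm_num)]]
    apply Real.sqrt_le_sqrt
    norm_num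
    linarith
  have hw' : |w - 1| ≤ 192 / 1000 := by linarith
  rw [abs_le] at hw'
  have hw1 : 808 / 1000 ≤ w := by linarith [hw'.1]
  have hw2 : w ≤ 1192 / 1000 := by linarith [hw'.2]
  have hw0 : 0 < w := by linarith
  have hwsq1 : 6528 / 10000 ≤ w ^ 2 := by nlinarith
  have hwsq2 : w ^ 2 ≤ 1421 / 1000 := by nlinarith
  obtain ⟨G1, hG1d⟩ : ∃ G1 : ℝ, G1 = 1 - c + d ^ 2 / (1421 / 1000) := ⟨_, rfl⟩
  obtain ⟨G, hGd⟩ : ∃ G : ℝ, G = 1 - c + (d / w) ^ 2 := ⟨_, rfl⟩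
  have hle : G1 ≤ G := by
    rw [hG1d, hGd, div_pow]
    have : d ^ 2 / (1421 / 1000) ≤ d ^ 2 / w ^ 2 :=
      div_le_div_of_nonneg_left (sq_nonneg d) (by positivity) hwsq2
    linarith
  rw [← hG1d] at hG1 hmain
  have hG : 0 < G := by linarith
  rw [← hGd]
  refine ⟨hw0, hG, ?_⟩
  obtain ⟨q, hq⟩ : ∃ q : ℝ, q = √G1 := ⟨_, rfl⟩
  have hq0 : 0 < q := by rw [hq]; exact Real.sqrt_pos.2 hG1
  have hqG : q ≤ √G := by rw [hq]; exact Real.sqrt_le_sqrt hle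
  rw [← hq] at hmain
  have h1 : |c2| / w ^ 2 * ((1 - c) / G) ≤ |c2| * (1 - c) / (6528 / 10000 * G1) := by
    rw [div_mul_div_comm]
    apply div_le_div_of_nonneg_left (by positivity) (by positivity)
    exact mul_le_mul hwsq1 hle hG1.le (by positivity)
  have h2 : |c2| * (1 - c) / (6528 / 10000 * G1) ≤ 3891 / 100 * q - 1 := by
    rw [div_le_iff₀ (by positivity)]
    have h3 : 0 < G1 * q := by positivity
    nlinarith
  have h4 : 1 / w ≤ 124 / 100 := by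
    rw [div_le_iff₀ hw0]
    linarith
  have h5 : 1 / w * √G ≤ 124 / 100 * √G := mul_le_mul_of_nonneg_right h4 (Real.sqrt_nonneg _)
  have h6 : 0 < √G := Real.sqrt_pos.2 hG
  linarith

end Pool.Agent.Helper77.CV.BAN
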